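import Pool.Agent.Zk51.SE.Main

/-!
# Szpiro's small points conjecture for towers of coverings

Let `K` be a number field, `S` a finite set of finite places. All curves are curves over `K` with
semi-stable reduction over the ring of integers and good reduction outside `S`. Call a covering
`f : X → Y` (over the algebraic closure), `Y` of genus at least two, mild if all its branch points are
Weierstrass points of `Y`; for example all étale coverings are mild.

**Theorem.** (1) Let `f : X → Y` be mild, and `Y` of genus at least two with a cyclic covering of prime
degree of the projective line, for example of genus two or hyperelliptic. Then the stable Faltings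
height of the Jacobian of `X` is at most `c(K, S, g)`, where `g` is the genus of `X`, and `X` has
infinitely many points `x` with `h(x) ≤ c(K, S, g)`, `c` effective, a computable function.

(2) Let `T₀(m)` be the class of all curves whose Jacobian is over the algebraic closure, up to
isogenies of any degree, a direct factor of a product of at most `m` basic abelian varieties of level
`m` (elliptic curves, Jacobians of cyclic coverings of prime degree of the projective line, and so on),
and let `T_{n+1}(m)` be the class of all curves whose Jacobian is up to isogenies a direct factor of a
product of at most `m` factors each of which is basic of level `m` for one of the steps `≤ n` or the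
Jacobian of a curve `X` over `K` of genus at most `m` with a mild covering `X → Y`, `Y` a curve over `K`
in `T_n(m)`. Then for every `n` there is a computable function `c_n` such that for all curves `X` over
`K` of genus at least two in `T_n(m)` the height of the Jacobian is at most `c_n(K, S, m)`, and `X` has
infinitely many points `x` with `h(x) ≤ c_n(K, S, m)`.

(3) If `X → Y` is mild and `Y` is in `T_n(m)`, and the genus of `X` is at most `m`, then `X` is in
`T_{n+1}(m)`; the classes `T_n(m)` are closed under images; and if a finite group acts on a curve `X`
of genus `g ≥ 2` and the Jacobian of `X` is generated by the images of the Jacobians of the quotients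
by those subgroups for which the quotient is in `T_n(m)`, then `X` is in `T_n(2^(84 g) m)`.

So Q1 is true for all curves which are obtained from the basic ones by finitely many steps, mild
coverings, images and isogeny factors of products. The theorem holds for every class of basic abelian
varieties with effectively bounded heights, for example also for the one of `ManyAutomorphisms`. Known
are the cyclic coverings of prime degree of the projective line (Javanpykar, von Känel).

Idea of the proof. The Faltings height of the Jacobian of `Y` is bounded effectively, by the isogeny
theorem of Masser and Wüstholz as in `JacobianFactors`. So, by the effective theorems of Northcott and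
Torelli, `Y` belongs to a finite effectively computable list of curves, and there is a morphism
`t : Y → ℙ¹` of bounded degree, unramified outside three points, which maps the Weierstrass points of
`Y` to these three points (Belyi). If `f : X → Y` is mild then the composition with `t` is unramified
outside three points, and its degree is bounded, since the degree of `f` is at most `g - 1` by the
formula of Hurwitz. So the Belyi degree of `X` is bounded, and the theorem of Javanpykar bounds the
Faltings height of the Jacobian of `X`. The Jacobian of `X` may now be used as a new basic abelian
variety, and so on.

The setting. `Curves` are the data (curves, Jacobians, points, heights, coverings, group actions; `𝒜`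
is the category of abelian varieties over the algebraic closure of `ℚ`), `Belyi` the data on mild
coverings and Belyi degrees; the known facts named above are the hypotheses `Belyi.IsKnown`. Pairs
`(K, S)` are coded by natural numbers `b`; effective means `Computable`.
-/

set_option autoImplicit false

namespace Pool.Agent.Results.MP_fe3691_nt.CoveringTowers

open CategoryTheory Pool.Agent.Zk51.SP Pool.Agent.Zk51.SQ Pool.Agent.Zk51.SE

universe v u

/-- Effective small points in towers of coverings whose branch points are Weierstrass points. -/
theorem result {𝒜 : Type u} [Category.{v} 𝒜] [Preadditive 𝒜] (D : Curves 𝒜) (E : Belyi D)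
    (Def : ℕ → ℕ → 𝒜 → Prop) (h : E.IsKnown Def) :
    (∃ c : ℕ × ℕ → ℕ, Computable c ∧ ∀ (b : ℕ) (X Y : D.V) (f : D.Mor X Y), D.Over b X →
      D.Over b Y → 2 ≤ D.genus Y → D.Cyclic Y → E.Mild f →
        D.hF (D.jac X) ≤ c (b, D.genus X) ∧ D.HasSmallPoints X (c (b, D.genus X))) ∧
    (∀ n : ℕ, ∃ c : ℕ × ℕ → ℕ, Computable c ∧ ∀ (b m : ℕ) (X : D.V), D.Over b X →
      2 ≤ D.genus X → IsFactor (E.level n) b m (D.jac X) →
        D.hF (D.jac X) ≤ c (b, m) ∧ D.HasSmallPoints X (c (b, m))) ∧
    (∀ (n b m : ℕ) (X Y : D.V) (f : D.Mor X Y), D.Over b X → D.Over b Y → 2 ≤ D.genus Y →
      D.genus X ≤ m → 1 ≤ m → E.Mild f → IsFactor (E.level n) b m (D.jac Y) →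
        IsFactor (E.level (n + 1)) b m (D.jac X)) ∧
    (∀ (n b m : ℕ) (X Y : D.V), D.Mor X Y → IsFactor (E.level n) b m (D.jac X) →
      IsFactor (E.level n) b m (D.jac Y)) ∧
    ∀ (n b m : ℕ) (X : D.V) (G : Type) [Group G] [Fintype G] (α : D.Act X G), 2 ≤ D.genus X →
      GeneratedBy D α (fun H => IsFactor (E.level n) b m (D.jac (D.quo α H))) →
        IsFactor (E.level n) b (2 ^ (84 * D.genus X) * m) (D.jac X) :=
  ⟨small_cyclic h, small h, fun _ _ _ _ _ f hX hY hg hm hm1 hf hF =>
      isFactor_cover f hX hY hg hm hm1 hf hF,
    fun n _ _ X Y f hf =>
      IsFactor.image (D := E.level n) (isEffective h n).arakelov (X' := X) (X := Y) f hf,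
    fun n _ _ X G _ _ α hX hg =>
      isFactor_of_generated (D := E.level n) (isEffective h n).arakelov (X := X) hX (G := G) α hg⟩

end Pool.Agent.Results.MP_fe3691_nt.CoveringTowers
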