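import Pool.Agent.Zk51.SP.Rep

/-!
# Szpiro's small points conjecture for curves with a group action

Szpiro's small points conjecture is known for the coverings of prime degree of the projective line
which are (geometrically) cyclic, for example for all curves of genus two and all hyperelliptic curves
(Javanpykar, von Känel). Call these curves, and the curves of genus zero and one, good.

**Theorem.** (1) Let `X` be a curve over `K` of genus `g ≥ 2`, with semi-stable reduction over the ring of
integers and good reduction outside `S`, and let `G` be a finite group of automorphisms of `X` over
`K`. Suppose that

(*) the Jacobian of `X` is generated by the images of the Jacobians of the good quotients `X / H`,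
`H ≤ G`.

Then `X` has infinitely many points `x` with `h(x) ≤ c`, where `c = c(K, S, g)` is effective, a
computable function of `K`, `S` and `g`. The same is true for all images `Y` of genus at least two of
such curves `X`, `X → Y` a nonconstant morphism, with `c = c(K, S, g(X))`.

(2) The condition (*) holds if `X / G` has genus zero and each irreducible rational representation of
`G`, except the trivial one, has a nonzero vector which is fixed by a subgroup `H` such that `X / H` is
good.

(3) The condition (*) holds for all Galois coverings of the projective line with an elementary abelian
Galois group `(ℤ/p)^r`, `p` prime.

(4) More generally, there is an effective `c = c(K, S, m)` with this property for all `X` such that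
the multiplication by some `n ≤ m` on the Jacobian of `X` factors through a product of at most `m`
basic abelian varieties `A`: of dimension at most `m`, and over an extension `L` of `K` of degree
at most `m`, unramified outside `S` and the primes up to `m`, with good reduction outside these
places, `A` is an elliptic curve, or the Jacobian of a cyclic covering of prime degree of the
projective line over `L`, or (for `L = ℚ`) of product `GL_2`-type.

Examples for (1) and (2) with moduli, not cyclic coverings of the line: quartic curves with three
commuting involutions (`G = (ℤ/2)^2`, the quotients by the involutions are of genus one), Humbert
curves, curves `y² = f(x), z² = g(x)`, curves with an action of the symmetric group `S_3` such that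
`X / G` has genus zero and the quotients by involutions have genus at most two (the quotient by the
cyclic subgroup is a double covering of the line), curves whose quotients of genus at most two
generate the Jacobian, and all their images, such as quotients of superelliptic curves of prime
exponent by arbitrary automorphisms.

Idea of the proof. Let `ν` be the sum of the norms `N(H)` of all good subgroups `H`. In the regular
representation `ν` is a symmetric positive semidefinite integral matrix of size `|G|` whose entries
are at most `2^|G|`. Its characteristic polynomial is `T^k P(T)` with `n = |P(0)| ≠ 0` bounded
explicitly in terms of `|G|` (Gershgorin), and by positivity `P(ν) N(H) = 0` for all good `H`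
(`Pool.Agent.Zk51.SP.ring_relation`). By (*) `P(ν)` is zero on the Jacobian, so the multiplication by
`n` factors through the product of the Jacobians of the good quotients. The order of `G` is at most
`84 (g - 1)`. Then the complement is bounded from below by the theorem of Bost, heights change under
isogenies by the logarithm of the degree, the heights of the Jacobians of the good quotients are
bounded effectively by the known theorems of Shafarevich type, and the height of the Jacobian of
`X` gives small points by the formula of Noether and the theorem of Zhang.

The setting. Curves, their Jacobians, points, heights, coverings and group actions are the data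
`Curves`, in which `𝒜` is the category of abelian varieties over the algebraic closure of `ℚ`; the
known facts named above are the hypotheses `IsArakelov`. Pairs `(K, S)` are coded by natural
numbers, and effective means `Computable`. Good reduction outside `S` is more general than bad
reduction exactly at `S`.
-/

set_option autoImplicit false

namespace Pool.Agent.Results.MP_fe3691_nt.GroupActions

open CategoryTheory Pool.Agent.Zk51.SP

universe v u

/-- Small points on curves with a group action, with an effective constant. -/
theorem result {𝒜 : Type u} [Category.{v} 𝒜] [Preadditive 𝒜] (D : Curves 𝒜)
    (h : D.IsArakelov) :
    (∃ c : ℕ × ℕ → ℕ, Computable c ∧ ∀ (b : ℕ) (X : D.V) (G : Type) [Group G] [Fintype G]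
      (α : D.Act X G), D.Over b X → 2 ≤ D.genus X → D.Generated α →
        D.HasSmallPoints X (c (b, D.genus X)) ∧
          ∀ Y : D.V, D.Mor X Y → 2 ≤ D.genus Y → D.HasSmallPoints Y (c (b, D.genus X))) ∧
    (∀ (X : D.V) (G : Type) [Group G] [Fintype G] (α : D.Act X G),
      D.genus (D.quo α ⊤) = 0 → D.SeesAll α → D.Generated α) ∧
    (∀ (X : D.V) (G : Type) [CommGroup G] [Fintype G] (p : ℕ) (α : D.Act X G), p.Prime →
      (∀ g : G, g ^ p = 1) → D.Line (D.quo α ⊤) → D.Generated α) ∧
    ∃ c : ℕ × ℕ → ℕ, Computable c ∧ ∀ (b m : ℕ) (X : D.V), 2 ≤ D.genus X →
      D.IsDominated b m (D.jac X) → D.HasSmallPoints X (c (b, m)) :=
  ⟨(Curves.main h).2, fun _ _ _ _ α h0 hs => Curves.generated_of_seesAll h α h0 hs,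
    fun _ _ _ _ _ α hp hG hL => Curves.generated_elementary h hp hG α hL, (Curves.main h).1⟩

end Pool.Agent.Results.MP_fe3691_nt.GroupActions
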