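import Pool.Agent.Zk51.SQ.Close

/-!
# Szpiro's small points conjecture for curves whose Jacobians are isogenous to products of known factors

Let `K` be a number field, `S` a finite set of finite places. Call an abelian variety `A` over the
algebraic closure of `K` basic of level `m` if it has dimension at most `m` and is defined over an
extension `L` of `K` of degree at most `m`, unramified outside `S` and the primes up to `m`, with good
reduction outside these places, and is zero, an elliptic curve, the Jacobian of a curve with a cyclic
covering of prime degree of the projective line, with the same reduction property (for example a curve
of genus two or a hyperelliptic curve), or, for `L = ℚ`, of product `GL_2`-type. Their Faltings heights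
are bounded effectively (theorems of Coates, Fuchs, de Jong, von Känel, Javanpykar, Rémond,
Wüstholz). Let `C(m)` be the class of all curves `X` whose Jacobian is over the algebraic closure, up
to isogenies of any degree, a direct factor of a product of at most `m` basic abelian varieties of
level `m`.

**Theorem.** Let `X` be a curve over `K` of genus `g ≥ 2` with semi-stable reduction over the ring of
integers and good reduction outside `S`.

(1) If the Jacobian of `X` is isogenous, over the algebraic closure, to a product of elliptic curves,
then `X` has infinitely many points `x` with `h(x) ≤ c(K, S, g)`, where `c` is effective, a
computable function of `K`, `S` and `g`.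

(2) If `X` is in the class `C(m)` then `X` has infinitely many points `x` with `h(x) ≤ c(K, S, m)`,
`c` a computable function of `K`, `S` and `m`.

(3) The class `C(m)` is closed under images. If a finite group `G` acts on a curve `X` of genus
`g ≥ 2`, and the Jacobian of `X` is generated by the images of the Jacobians of those quotients
`X / H`, `H ≤ G`, which are in `C(m)`, then `X` is in `C(2^(84 g) m)`.

So Q1 is true for all curves with completely decomposable Jacobians. The hypothesis depends only on
the isogeny class, and neither the degrees of the isogenies nor their fields of definition are
bounded in advance.

The result `GroupActions` of this problem has explicit multiplications `n ≤ m` which factor through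
products, bounded for group actions by the polynomial relation for sums of norms; it does not use the
isogeny theorem. Here the isogeny theorem of Masser and Wüstholz is used.

Idea of the proof. Let `P` be the product, `A` the Jacobian and `A'` the complement of `A` in `P`, an
image of an endomorphism of `P`, which is defined over an extension of bounded degree. The product
`A × A'` is isogenous to `P`, whose height is bounded effectively. By the isogeny theorem there is an
isogeny of effectively bounded degree, so the height of `A × A'` is bounded from above, and the
height of `A'` is bounded from below by the theorem of Bost. The height of the Jacobian gives small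
points by the formula of Noether and the theorem of Zhang. In (1) each elliptic factor is isogenous to
an elliptic curve over an extension of `K` of degree bounded in terms of `g`, unramified outside `S`,
with good reduction outside `S`. In (3) the relation `ring_relation` between the norms of the
subgroups in the integral group ring is used.

The setting. `Curves` are the data (curves, Jacobians, points, heights, coverings, group actions;
`𝒜` is the category of abelian varieties over the algebraic closure of `ℚ`); the known facts named
above are the hypotheses `IsEffective`; `Def b m A` says that `A` is defined over an extension of `K`
of degree at most `m`. Pairs `(K, S)` are coded by natural numbers `b`; effective means `Computable`.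
-/

set_option autoImplicit false

namespace Pool.Agent.Results.MP_fe3691_nt.JacobianFactors

open CategoryTheory Pool.Agent.Zk51.SP Pool.Agent.Zk51.SQ

universe v u

/-- Small points on curves whose Jacobians are isogeny factors of products of known abelian
varieties, with effective constants. -/
theorem result {𝒜 : Type u} [Category.{v} 𝒜] [Preadditive 𝒜] (D : Curves 𝒜)
    (Def : ℕ → ℕ → 𝒜 → Prop) (h : IsEffective D Def) :
    (∃ c : ℕ × ℕ → ℕ, Computable c ∧ ∀ (b : ℕ) (X : D.V), D.Over b X → 2 ≤ D.genus X →
      IsCompletelyDecomposable D (D.jac X) → D.HasSmallPoints X (c (b, D.genus X))) ∧
    (∃ c : ℕ × ℕ → ℕ, Computable c ∧ ∀ (b m : ℕ) (X : D.V), D.Over b X → 2 ≤ D.genus X →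
      IsFactor D b m (D.jac X) → D.HasSmallPoints X (c (b, m))) ∧
    (∀ (b m : ℕ) (X Y : D.V), D.Mor X Y → IsFactor D b m (D.jac X) →
      IsFactor D b m (D.jac Y)) ∧
    ∀ (b m : ℕ) (X : D.V) (G : Type) [Group G] [Fintype G] (α : D.Act X G), 2 ≤ D.genus X →
      GeneratedBy D α (fun H => IsFactor D b m (D.jac (D.quo α H))) →
        IsFactor D b (2 ^ (84 * D.genus X) * m) (D.jac X) :=
  ⟨main_decomposable h, main h, fun _ _ _ _ f hf => hf.image h.arakelov f,
    fun _ _ _ _ _ _ α hX hg => isFactor_of_generated h.arakelov hX α hg⟩

end Pool.Agent.Results.MP_fe3691_nt.JacobianFactors
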