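import Pool.Agent.Zk51.SG.Main

/-!
# Szpiro's small points conjecture for curves with at least `g` automorphisms

Let `K` be a number field, `S` a finite set of finite places, and `X` a curve over `K` of genus
`g ≥ 2` with semi-stable reduction over the ring of integers and good reduction outside `S`.

**Theorem.** (1) Suppose that over the algebraic closure of `K` there is a finite group `G` of
automorphisms of `X` such that the genus of `X / G` is zero or one. Then the stable Faltings height of
the Jacobian of `X` is at most `c(K, S, g)`, and `X` has infinitely many points `x` with
`h(x) ≤ c(K, S, g)`, where `c` is effective, a computable function of `K`, `S` and `g`.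

(2) The hypothesis holds if `X` has at least `g` automorphisms over the algebraic closure. It holds for
all Galois coverings of the projective line or of an elliptic curve over the algebraic closure, for
example for all bielliptic curves.

(3) Let `E(m)` be the class of all curves whose Jacobian is over the algebraic closure, up to
isogenies of any degree, a direct factor of a product of at most `m` abelian varieties each of which
is the Jacobian of a curve as in (1) over `K` of genus at most `m`, or basic of level `m` in the sense
of the result `JacobianFactors`. If `X` is in `E(m)` then `X` has infinitely many points `x` with
`h(x) ≤ c(K, S, m)`, `c` computable.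

(4) Every curve `X` as in (1) is in `E(g)`, and `E(m)` is closed under images. If a finite group acts
on a curve `X` of genus `g ≥ 2`, and the Jacobian of `X` is generated by the images of the Jacobians
of the quotients by those subgroups for which the quotient is in `E(m)`, then `X` is in
`E(2^(84 g) m)`.

So Q1 is true for all curves with `|Aut(X)| ≥ g` over the algebraic closure, and for all curves which
are images of such curves over `K` with the same reduction properties, with a bound which depends also
on the genus of these. Known are the cyclic coverings of prime degree of the projective line
(Javanpykar, von Känel).

Idea of the proof. The automorphisms are defined over an unramified extension of `K` of bounded degree.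
Let `𝒳` be the smooth model of `X` over the ring `R` of `S`-integers with the primes `≤ 84 g + 2`
inverted. The group `G` acts on `𝒳`, and its order is invertible. Then the branch locus `B` of
`X → X / G` is étale over `R`: let `y`, `y'` be branch points with the same specialisation at `v`, and
`x`, `x'` points above them, which are fixed by elements `g ≠ 1`, `g' ≠ 1`. The specialisations of
`x` and `x'` are conjugate, and we may replace `x` by a conjugate such that they are equal, to a point
`z`. The stabiliser of `z` contains `g` and `g'`; by tameness `z` lifts to a point `w` fixed by the
stabiliser, and the fixed points of `g` and of `g'` which specialise to `z` are unique. So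
`x = w = x'`. If the genus of `X / G` is zero, then the theorem of Evertse and Győry bounds the height
of `B` in a suitable coordinate. If it is one, then `B` is not empty; let `P` be in `B`. The elliptic
curve `(X / G, P)` has good reduction over `R`, and the points of `B` different from `P` are integral
with respect to `P`, since `B` is étale. The theorems of Coates and Baker bound the heights of this
curve and of `B`. Now `X → X / G`, in the second case composed with the `x`-coordinate, is a covering
of the projective line of degree at most `2 |G|` whose branch points have bounded height, and the
theorem of Javanpykar bounds the Faltings height of the Jacobian of `X`. It gives small points by the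
formula of Noether and the theorem of Zhang. For (2): if the genus of `X / G` is at least two then
`|G| ≤ g - 1`. For (3) and (4) the proof of `JacobianFactors` is used with the larger class of
factors.

The setting. `Curves` are the data (curves, Jacobians, points, heights, coverings, group actions; `𝒜`
is the category of abelian varieties over the algebraic closure of `ℚ`), `Reductions` the data on
specialisation, base change and coordinates; the known facts named above are the hypotheses `IsKnown`.
Pairs `(K, S)` are coded by natural numbers `b`; effective means `Computable`.
-/

set_option autoImplicit false

namespace Pool.Agent.Results.MP_fe3691_nt.ManyAutomorphisms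

open CategoryTheory Pool.Agent.Zk51.SP Pool.Agent.Zk51.SQ Pool.Agent.Zk51.SG

universe v u

/-- Effective small points on curves with a finite group of automorphisms such that the quotient has
genus at most one, for example on curves of genus `g` with at least `g` automorphisms, and on the
curves whose Jacobians are isogeny factors of products of their Jacobians. -/
theorem result {𝒜 : Type u} [Category.{v} 𝒜] [Preadditive 𝒜] (D : Curves 𝒜) (R : Reductions D)
    (Def : ℕ → ℕ → 𝒜 → Prop) (h : R.IsKnown Def) :
    (∃ c : ℕ × ℕ → ℕ, Computable c ∧ ∀ (b : ℕ) (X : D.V), D.Over b X → 2 ≤ D.genus X →
      R.IsSymmetric X → D.hF (D.jac X) ≤ c (b, D.genus X) ∧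
        D.HasSmallPoints X (c (b, D.genus X))) ∧
    (∀ X : D.V, 2 ≤ D.genus X → R.HasMany X → R.IsSymmetric X) ∧
    (∃ c : ℕ × ℕ → ℕ, Computable c ∧ ∀ (b m : ℕ) (X : D.V), D.Over b X → 2 ≤ D.genus X →
      IsFactor R.extend b m (D.jac X) → D.HasSmallPoints X (c (b, m))) ∧
    (∀ (b : ℕ) (X : D.V), D.Over b X → 2 ≤ D.genus X → R.IsSymmetric X →
      IsFactor R.extend b (D.genus X) (D.jac X)) ∧
    (∀ (b m : ℕ) (X Y : D.V), D.Mor X Y → IsFactor R.extend b m (D.jac X) →
      IsFactor R.extend b m (D.jac Y)) ∧
    ∀ (b m : ℕ) (X : D.V) (G : Type) [Group G] [Fintype G] (α : D.Act X G), 2 ≤ D.genus X →
      GeneratedBy D α (fun H => IsFactor R.extend b m (D.jac (D.quo α H))) →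
        IsFactor R.extend b (2 ^ (84 * D.genus X) * m) (D.jac X) :=
  have e := isEffective h
  ⟨small h, fun _ hX hm => isSymmetric_of_many h hX hm, main e,
    fun _ _ hO hX hs => isFactor_of_symmetric hO hX hs,
    fun _ _ X Y f hf => IsFactor.image (D := R.extend) e.arakelov (X' := X) (X := Y) f hf,
    fun _ _ X G _ _ α hX hg => isFactor_of_generated (D := R.extend) e.arakelov (X := X) hX
      (G := G) α hg⟩

end Pool.Agent.Results.MP_fe3691_nt.ManyAutomorphisms
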